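import Pool.Agent.H132.Scherk

set_option autoImplicit false

open Finset Pointwise

namespace Pool.Agent.H132.FAvoid

variable {α : Type*} [DecidableEq α] {G : Type*} [AddCommGroup G] [DecidableEq G]

/-- Contracting an element decreases the rank of a set by at most one. -/
theorem shrink (M : Matroid α) (K I : Finset α) (b : α) (hKI : Disjoint K I)
    (hI : M.Indep (↑(K ∪ I) : Set α)) (hKb : M.Indep (↑(insert b K) : Set α)) (hb : b ∉ K) :
    ∃ I' ⊆ I, b ∉ I' ∧ M.Indep (↑(insert b K ∪ I') : Set α) ∧ I.card ≤ I'.card + 1 := by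
  classical
  set X : Finset α := insert b (K ∪ I) with hX
  have hXE : (↑X : Set α) ⊆ M.E := by
    rw [hX, coe_insert, Set.insert_subset_iff]
    exact ⟨hKb.subset_ground (by simp), hI.subset_ground⟩
  have hsub : (↑(insert b K) : Set α) ⊆ ↑X := by
    rw [hX]; intro x hx
    simp only [coe_insert, Set.mem_insert_iff, mem_coe, coe_union, Set.mem_union] at hx ⊢
    tauto
  obtain ⟨J, hJ, hKJ⟩ := hKb.subset_isBasis_of_subset hsub hXE
  have hJfin : J.Finite := (X.finite_toSet).subset hJ.subset
  obtain ⟨J', rfl⟩ := hJfin.exists_finset_coe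
  have hJX : J' ⊆ X := by exact_mod_cast hJ.subset
  have hKJ' : insert b K ⊆ J' := by exact_mod_cast hKJ
  have h1 : (↑(K ∪ I) : Set α).encard ≤ (↑J' : Set α).encard := by
    rw [hJ.encard_eq_eRk]
    refine hI.encard_le_eRk_of_subset ?_
    rw [hX]; intro x hx
    rw [coe_insert]; exact Set.mem_insert_of_mem _ hx
  rw [Set.encard_coe_eq_coe_finsetCard, Set.encard_coe_eq_coe_finsetCard] at h1
  have h2 : (K ∪ I).card ≤ J'.card := by exact_mod_cast h1
  rw [card_union_of_disjoint hKI] at h2
  refine ⟨J' \ insert b K, ?_, ?_, ?_, ?_⟩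
  · intro x hx
    rw [mem_sdiff, mem_insert, not_or] at hx
    have := hJX hx.1
    rw [hX, mem_insert, mem_union] at this
    tauto
  · simp
  · refine hJ.indep.subset ?_
    intro x hx
    rw [mem_coe, mem_union, mem_sdiff] at hx
    rcases hx with h | h
    · exact mem_coe.mpr (hKJ' h)
    · exact mem_coe.mpr h.1
  · rw [card_sdiff_of_subset hKJ', card_insert_of_notMem hb]
    omega

omit [AddCommGroup G] in
/-- The exchange which realises a label. -/
theorem attained (M : Matroid α) (ψ : α → G) (K E0 X : Finset α) (b : α) (g : G)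
    (hbK : b ∉ K) (hbX : b ∉ X)
    (hX : M.IsBase (↑(insert b K ∪ X) : Set α))
    (hg : b ∈ M.closure (↑(K ∪ E0.filter (fun e => ψ e = g)) : Set α)) :
    ∃ x ∈ E0, ψ x = g ∧ x ∉ K ∧ x ∉ X ∧ M.IsBase (↑(K ∪ insert x X) : Set α) := by
  have hdiff : (↑(insert b K ∪ X) : Set α) \ {b} = ↑(K ∪ X) := by
    ext y
    simp only [coe_union, coe_insert, Set.mem_sdiff, Set.mem_union, Set.mem_insert_iff, mem_coe,
      Set.mem_singleton_iff]
    constructor
    · rintro ⟨(h | h) | h, hy⟩
      · exact absurd h hy
      · exact Or.inl h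
      · exact Or.inr h
    · rintro (h | h)
      · exact ⟨Or.inl (Or.inr h), fun hc => hbK (hc ▸ h)⟩
      · exact ⟨Or.inr h, fun hc => hbX (hc ▸ h)⟩
  have hbnot : b ∉ M.closure (↑(K ∪ X) : Set α) := by
    rw [← hdiff]
    refine hX.indep.notMem_closure_sdiff_of_mem ?_
    simp
  have hKX : (↑(K ∪ X) : Set α) ⊆ M.E := by
    rw [← hdiff]
    exact Set.sdiff_subset.trans hX.subset_ground
  have hex : ∃ x ∈ E0, ψ x = g ∧ x ∉ M.closure (↑(K ∪ X) : Set α) ∧ x ∈ M.E := by
    by_contra hcon
    push Not at hcon
    apply hbnot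
    rw [← M.closure_inter_ground] at hg
    have hsub : (↑(K ∪ E0.filter (fun e => ψ e = g)) : Set α) ∩ M.E ⊆
        M.closure (↑(K ∪ X) : Set α) := by
      rintro y ⟨hy, hyE⟩
      rw [mem_coe, mem_union, mem_filter] at hy
      rcases hy with h | h
      · exact M.subset_closure _ hKX (by simp [h])
      · by_contra hc
        exact hcon y h.1 h.2 hc hyE
    exact M.closure_subset_closure_of_subset_closure hsub hg
  obtain ⟨x, hx0, hxg, hxc, hxE⟩ := hex
  refine ⟨x, hx0, hxg, ?_, ?_, ?_⟩
  · intro h; exact hxc (M.subset_closure _ hKX (by simp [h]))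
  · intro h; exact hxc (M.subset_closure _ hKX (by simp [h]))
  · have h1 := hX.exchange_base_of_notMem_closure (e := b) (f := x) (by simp)
      (by rw [hdiff]; exact hxc) hxE
    rw [hdiff] at h1
    have h2 : (↑(K ∪ insert x X) : Set α) = insert x (↑(K ∪ X) : Set α) := by
      ext y
      simp only [coe_union, coe_insert, Set.mem_union, Set.mem_insert_iff, mem_coe]
      tauto
    rw [h2]
    exact h1

/-- **A theorem of Scherk type for matroids with labels.** If a label is attained by one base only,
then there are at least `1 - r + |Y|` labels of bases, for every set `Y` whose label classes are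
independent. The statement is relative: `K` is contracted and the elements outside `E0` are
deleted. -/
theorem main_T (M : Matroid α) (ψ : α → G) (n : ℕ) : ∀ (K Bs Y E0 : Finset α),
    Bs.card = n → Disjoint K E0 → Bs ⊆ E0 → Y ⊆ E0 → M.IsBase (↑(K ∪ Bs) : Set α) →
    (∀ X : Finset α, X ⊆ E0 → M.IsBase (↑(K ∪ X) : Set α) →
      ∑ x ∈ X, ψ x = ∑ x ∈ Bs, ψ x → X = Bs) →
    (∀ g, M.Indep (↑(K ∪ Y.filter (fun e => ψ e = g)) : Set α)) →
    ∃ S : Finset G, (∀ g ∈ S, ∃ X ⊆ E0, M.IsBase (↑(K ∪ X) : Set α) ∧ ∑ x ∈ X, ψ x = g) ∧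
      (∑ x ∈ Bs, ψ x) ∈ S ∧ Y.card + 1 ≤ S.card + Bs.card := by
  classical
  induction n with
  | zero =>
    intro K Bs Y E0 hn hKE hBE hYE hB hu hY
    rw [card_eq_zero] at hn
    subst hn
    refine ⟨{0}, ?_, by simp, ?_⟩
    · intro g hg
      rw [mem_singleton] at hg
      subst hg
      exact ⟨∅, empty_subset _, hB, by simp⟩
    · have : Y = ∅ := by
        rw [eq_empty_iff_forall_notMem]
        intro y hy
        have h1 := hY (ψ y)
        rw [union_empty] at hB
        have h2 : (↑K : Set α) = ↑(K ∪ Y.filter (fun e => ψ e = ψ y)) :=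
          hB.eq_of_subset_indep h1 (by simp)
        have h3 : y ∈ (↑K : Set α) := by
          rw [h2]; simp [hy]
        exact (disjoint_left.mp hKE) (mem_coe.mp h3) (hYE hy)
      subst this
      simp
  | succ n ih =>
    intro K Bs Y E0 hn hKE hBE hYE hB hu hY
    have hne : Bs.Nonempty := by
      rw [← card_pos]; omega
    obtain ⟨b, hb⟩ := hne
    have hbE0 : b ∈ E0 := hBE hb
    have hbK : b ∉ K := fun h => (disjoint_left.mp hKE) h hbE0
    have hbM : b ∈ M.E := hB.subset_ground (by simp [hb])
    have hKb : M.Indep (↑(insert b K) : Set α) := by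
      refine hB.indep.subset ?_
      intro x hx
      simp only [coe_insert, Set.mem_insert_iff, mem_coe, coe_union, Set.mem_union] at hx ⊢
      rcases hx with rfl | h
      · exact Or.inr hb
      · exact Or.inl h
    -- the shrunken classes
    have hI : ∀ g, ∃ I : Finset α, I ⊆ Y.filter (fun e => ψ e = g) ∧ b ∉ I ∧
        M.Indep (↑(insert b K ∪ I) : Set α) ∧ (Y.filter (fun e => ψ e = g)).card ≤ I.card + 1 ∧
        (b ∉ M.closure (↑(K ∪ E0.filter (fun e => ψ e = g)) : Set α) →
          I = Y.filter (fun e => ψ e = g)) := by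
      intro g
      by_cases hc : b ∈ M.closure (↑(K ∪ E0.filter (fun e => ψ e = g)) : Set α)
      · obtain ⟨I, h1, h2, h3, h4⟩ := shrink M K (Y.filter (fun e => ψ e = g)) b
          (disjoint_of_subset_right ((filter_subset _ _).trans hYE) hKE) (hY g) hKb hbK
        exact ⟨I, h1, h2, h3, h4, fun h => absurd hc h⟩
      · have hsub : (↑(K ∪ Y.filter (fun e => ψ e = g)) : Set α) ⊆
            ↑(K ∪ E0.filter (fun e => ψ e = g)) := by
          exact_mod_cast union_subset_union_right (filter_subset_filter _ hYE)
        have hc2 : b ∉ M.closure (↑(K ∪ Y.filter (fun e => ψ e = g)) : Set α) :=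
          fun h => hc (M.closure_subset_closure hsub h)
        have hbn : b ∉ (↑(K ∪ Y.filter (fun e => ψ e = g)) : Set α) :=
          fun h => hc2 (M.subset_closure _ (hY g).subset_ground h)
        refine ⟨Y.filter (fun e => ψ e = g), Subset.refl _, ?_, ?_, by omega, fun _ => rfl⟩
        · intro h; exact hbn (by simp only [coe_union, Set.mem_union, mem_coe]; exact Or.inr h)
        · have h3 := ((hY g).insert_indep_iff_of_notMem hbn).mpr ⟨hbM, hc2⟩
          have h4 : (↑(insert b K ∪ Y.filter (fun e => ψ e = g)) : Set α) =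
              insert b (↑(K ∪ Y.filter (fun e => ψ e = g)) : Set α) := by
            ext y
            simp only [coe_union, coe_insert, Set.mem_union, Set.mem_insert_iff, mem_coe]
            tauto
          rw [h4]; exact h3
    choose I hI1 hI2 hI3 hI4 hI5 using hI
    set Y1 : Finset α := Y.filter (fun y => y ∈ I (ψ y)) with hY1
    set A : Finset G := (E0.image ψ).filter
      (fun g => b ∈ M.closure (↑(K ∪ E0.filter (fun e => ψ e = g)) : Set α)) with hA
    have hYcard : Y.card ≤ Y1.card + A.card := by
      have h1 : (Y \ Y1).card ≤ A.card := by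
        refine card_le_card_of_injOn ψ ?_ ?_
        · intro y hy
          rw [mem_coe, mem_sdiff, hY1, mem_filter, not_and] at hy
          rw [mem_coe, hA, mem_filter]
          refine ⟨mem_image_of_mem _ (hYE hy.1), ?_⟩
          by_contra hc
          have := hI5 (ψ y) hc
          apply hy.2 hy.1
          rw [this, mem_filter]
          exact ⟨hy.1, rfl⟩
        · intro y hy z hz hyz
          rw [mem_coe, mem_sdiff, hY1, mem_filter, not_and] at hy hz
          have hyz' : ψ y = ψ z := hyz
          have e1 : y ∈ Y.filter (fun e => ψ e = ψ z) \ I (ψ z) := by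
            rw [mem_sdiff, mem_filter]
            exact ⟨⟨hy.1, hyz'⟩, by rw [← hyz']; exact hy.2 hy.1⟩
          have e2 : z ∈ Y.filter (fun e => ψ e = ψ z) \ I (ψ z) := by
            rw [mem_sdiff, mem_filter]
            exact ⟨⟨hz.1, rfl⟩, hz.2 hz.1⟩
          have e3 : (Y.filter (fun e => ψ e = ψ z) \ I (ψ z)).card ≤ 1 := by
            rw [card_sdiff_of_subset (hI1 _)]
            have := hI4 (ψ z)
            omega
          exact card_le_one.mp e3 y e1 z e2
      have h2 : Y1 ⊆ Y := filter_subset _ _
      rw [card_sdiff_of_subset h2] at h1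
      omega
    have hu' : ∀ X : Finset α, X ⊆ E0.erase b → M.IsBase (↑(insert b K ∪ X) : Set α) →
        ∑ x ∈ X, ψ x = ∑ x ∈ Bs.erase b, ψ x → X = Bs.erase b := by
      intro X hX hXB hXs
      have hbX : b ∉ X := fun h => by simpa using hX h
      have h1 := hu (insert b X) (by
        rw [insert_subset_iff]
        exact ⟨hbE0, hX.trans (erase_subset _ _)⟩) (by
          have : K ∪ insert b X = insert b K ∪ X := by
            ext y
            simp only [mem_union, mem_insert]
            tauto
          rw [this]; exact hXB) (by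
          rw [sum_insert hbX, hXs, add_sum_erase _ _ hb])
      rw [← h1, erase_insert hbX]
    obtain ⟨S1, hS1, hS2, hS3⟩ := ih (insert b K) (Bs.erase b) Y1 (E0.erase b)
      (by rw [card_erase_of_mem hb]; omega)
      (by
        rw [disjoint_left]
        intro x hx hx2
        rw [mem_insert] at hx
        rw [mem_erase] at hx2
        rcases hx with h | h
        · exact hx2.1 h
        · exact (disjoint_left.mp hKE) h hx2.2)
      (erase_subset_erase _ hBE)
      (by
        intro y hy
        rw [hY1, mem_filter] at hy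
        rw [mem_erase]
        refine ⟨?_, hYE hy.1⟩
        rintro rfl
        exact hI2 _ hy.2)
      (by
        have : insert b K ∪ Bs.erase b = K ∪ Bs := by
          ext y; simp only [mem_union, mem_insert, mem_erase]
          by_cases hy : y = b
          · subst hy; simp [hb]
          · simp [hy]
        rw [this]; exact hB)
      hu'
      (by
        intro g
        refine (hI3 g).subset ?_
        intro y hy
        rw [mem_coe, mem_union, mem_filter, hY1, mem_filter] at hy
        rw [mem_coe, mem_union]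
        rcases hy with h | ⟨⟨_, h1⟩, h2⟩
        · exact Or.inl h
        · right; rw [← h2]; exact h1)
    have hsumB : ∑ x ∈ Bs.erase b, ψ x + ψ b = ∑ x ∈ Bs, ψ x := sum_erase_add _ _ hb
    have hψb : ψ b ∈ A := by
      rw [hA, mem_filter]
      refine ⟨mem_image_of_mem _ hbE0, ?_⟩
      exact M.mem_closure_of_mem' (by simp [hbE0]) hbM
    have hsch := scherk hS2 hψb (by
      intro σ hσ g hg hsum
      obtain ⟨X, hX1, hX2, hX3⟩ := hS1 σ hσ
      have hbX : b ∉ X := fun h => by simpa using hX1 h
      obtain ⟨x, hx0, hxg, hxK, hxX, hxB⟩ := attained M ψ K E0 X b g hbK hbX hX2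
        (mem_filter.mp hg).2
      have h1 := hu (insert x X) (by
        rw [insert_subset_iff]
        exact ⟨hx0, hX1.trans (erase_subset _ _)⟩) hxB (by
          rw [sum_insert hxX, hxg, hX3, ← hsumB, ← hsum, add_comm])
      have h2 : b ∈ insert x X := by rw [h1]; exact hb
      rw [mem_insert] at h2
      rcases h2 with h2 | h2
      · rw [h2, hxg]
      · exact absurd h2 hbX)
    refine ⟨S1 + A, ?_, ?_, ?_⟩
    · intro s hs
      obtain ⟨σ, hσ, g, hg, rfl⟩ := mem_add.mp hs
      obtain ⟨X, hX1, hX2, hX3⟩ := hS1 σ hσ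
      have hbX : b ∉ X := fun h => by simpa using hX1 h
      obtain ⟨x, hx0, hxg, hxK, hxX, hxB⟩ := attained M ψ K E0 X b g hbK hbX hX2
        (mem_filter.mp hg).2
      refine ⟨insert x X, ?_, hxB, ?_⟩
      · rw [insert_subset_iff]
        exact ⟨hx0, hX1.trans (erase_subset _ _)⟩
      · rw [sum_insert hxX, hxg, hX3, add_comm]
    · rw [← hsumB]
      exact add_mem_add hS2 hψb
    · have h1 : (Bs.erase b).card = Bs.card - 1 := card_erase_of_mem hb
      have h2 : 0 < Bs.card := by omega
      omega

end Pool.Agent.H132.FAvoid
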