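import Pool.Agent.H132.GrzE2

set_option autoImplicit false

open List.Vector

namespace Pool.Agent.H132.Grz

open E2

/-- A bounded power of two. -/
def pw (t s : ℕ) : ℕ := if 2 ^ t < s + 1 then 2 ^ t else s + 1

theorem pw_rec (s t : ℕ) :
    (t.rec 1 (fun _ IH : ℕ => if 2 * IH < s + 1 then 2 * IH else s + 1) : ℕ) = pw t (s) := by
  induction t with
  | zero =>
    change 1 = pw 0 s
    simp only [pw, pow_zero]
    split_ifs <;> omega
  | succ t ih =>
    simp only [ih, pw, pow_succ]
    split_ifs <;> omega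

theorem pw_le (t s : ℕ) : pw t s ≤ s + 1 := by
  unfold pw; split_ifs <;> omega

theorem E2pw : @E2 2 fun v => pw v.head v.tail.head := by
  have h1 : @E2 4 fun w => 2 * w.tail.head := mull (const 2) (tail head)
  have h2 : @E2 4 fun w => w.tail.tail.tail.head + 1 := succc (tail (tail (tail head)))
  refine (rec' (n := 2) (f := fun v => v.head) (g := fun _ => 1)
    (h := fun w => if 2 * w.tail.head < w.tail.tail.tail.head + 1 then 2 * w.tail.head
      else w.tail.tail.tail.head + 1) (j := fun w => w.tail.tail.head + 1)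
    head (const 1) (if_lt h1 h2 h1 h2) (succc (tail (tail head))) ?_).of_eq fun v => ?_
  · intro y v
    simp only [List.Vector.tail_cons, List.Vector.head_cons]
    rw [pw_rec]
    exact pw_le _ _
  · simp only [List.Vector.tail_cons, List.Vector.head_cons]
    rw [pw_rec]

theorem testBit_iff_exists (s t : ℕ) :
    s.testBit t = true ↔ ∃ a, a ≤ s ∧ ∃ b, b ≤ s ∧
      (pw t s ≤ s ∧ b < pw t s ∧ s = (2 * a + 1) * pw t s + b) := by
  rw [Nat.testBit_eq_decide_div_mod_eq, decide_eq_true_eq]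
  constructor
  · intro h
    have hpos : 0 < 2 ^ t := by positivity
    have hle : 2 ^ t ≤ s := by
      by_contra hc
      push Not at hc
      rw [Nat.div_eq_of_lt hc] at h
      simp at h
    have hpw : pw t s = 2 ^ t := by unfold pw; rw [if_pos (by omega)]
    rw [hpw]
    refine ⟨s / 2 ^ t / 2, (Nat.div_le_self _ _).trans (Nat.div_le_self _ _),
      s % 2 ^ t, Nat.mod_le _ _, hle, Nat.mod_lt _ hpos, ?_⟩
    have h1 : 2 * (s / 2 ^ t / 2) + 1 = s / 2 ^ t := by omega
    rw [h1, Nat.mul_comm]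
    exact (Nat.div_add_mod _ _).symm
  · rintro ⟨a, -, b, -, h1, h2, h3⟩
    have hpw : pw t s = 2 ^ t := by
      unfold pw at h1 ⊢
      split_ifs at h1 ⊢
      · rfl
      · omega
    rw [hpw] at h1 h2 h3
    have hpos : 0 < 2 ^ t := by positivity
    have : s / 2 ^ t = 2 * a + 1 := by
      rw [h3, Nat.mul_comm, Nat.mul_add_div hpos, Nat.div_eq_of_lt h2]
    rw [this]
    omega

theorem bit {n : ℕ} {f g : List.Vector ℕ n → ℕ} (hf : E2 f) (hg : E2 g) :
    P2 fun v => (f v).testBit (g v) = true := by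
  have key : @P2 2 fun v => v.head.testBit v.tail.head = true := by
    have hp : @P2 4 fun w => pw w.tail.tail.tail.head w.tail.tail.head ≤ w.tail.tail.head ∧
        w.head < pw w.tail.tail.tail.head w.tail.tail.head ∧
        w.tail.tail.head = (2 * w.tail.head + 1) * pw w.tail.tail.tail.head w.tail.tail.head
          + w.head := by
      have e : @E2 4 fun w => pw w.tail.tail.tail.head w.tail.tail.head :=
        comp₂ pw E2pw (tail (tail (tail head))) (tail (tail head))
      exact (P2.le e (tail (tail head))).and ((P2.lt head e).and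
        (P2.eq (tail (tail head)) (addd (mull (succc (mull (const 2) (tail head))) e) head)))
    have h1 := P2.exists_le (n := 3) (b := fun w => w.tail.head) (tail head) hp
    have h2 := P2.exists_le (n := 2) (b := fun w => w.head) head h1
    refine h2.of_iff fun v => ?_
    rw [testBit_iff_exists]
    simp only [List.Vector.tail_cons, List.Vector.head_cons]
  exact P2.comp₂ (fun s t => s.testBit t = true) key hf hg

/-- The code of the statement: the function with code `e` takes the value `y` at `x`. -/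
def T (e x y : ℕ) : ℕ := Nat.pair e (Nat.pair x y)

/-- The statement `T e x y` is justified by the statements in `P`. -/
def Just (P : ℕ → Prop) (e x y : ℕ) : Prop :=
  (e.unpair.1 = 0 ∧ y = 0) ∨
  (e.unpair.1 = 1 ∧ y = x + 1) ∨
  (e.unpair.1 = 2 ∧ y = x.unpair.1) ∨
  (e.unpair.1 = 3 ∧ y = x.unpair.2) ∨
  (e.unpair.1 = 4 ∧ P (T e.unpair.2.unpair.1 x y.unpair.1) ∧
    P (T e.unpair.2.unpair.2 x y.unpair.2)) ∨
  (e.unpair.1 = 5 ∧ ∃ u, P (T e.unpair.2.unpair.2 x u) ∧ P (T e.unpair.2.unpair.1 u y)) ∨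
  (e.unpair.1 = 6 ∧ x.unpair.2 = 0 ∧ P (T e.unpair.2.unpair.1 x.unpair.1 y)) ∨
  (e.unpair.1 = 6 ∧ 0 < x.unpair.2 ∧ ∃ u,
    P (T e (Nat.pair x.unpair.1 (x.unpair.2 - 1)) u) ∧
    P (T e.unpair.2.unpair.2 (Nat.pair x.unpair.1 (Nat.pair (x.unpair.2 - 1) u)) y))

def Closed (P : ℕ → Prop) : Prop := ∀ e x y, P (T e x y) → Just P e x y

theorem testBit_le {s t : ℕ} (h : s.testBit t = true) : t ≤ s := by
  have := Nat.ge_two_pow_of_testBit h
  exact (Nat.lt_two_pow_self (n := t)).le.trans this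

theorem le_T (e x y : ℕ) : y ≤ T e x y :=
  (Nat.right_le_pair _ _).trans (Nat.right_le_pair _ _)

theorem T_unpair (t : ℕ) :
    T t.unpair.1 t.unpair.2.unpair.1 t.unpair.2.unpair.2 = t := by
  simp [T]

theorem Just_iff (s e x y : ℕ) :
    Just (fun m => s.testBit m = true) e x y ↔
  (e.unpair.1 = 0 ∧ y = 0) ∨
  (e.unpair.1 = 1 ∧ y = x + 1) ∨
  (e.unpair.1 = 2 ∧ y = x.unpair.1) ∨
  (e.unpair.1 = 3 ∧ y = x.unpair.2) ∨
  (e.unpair.1 = 4 ∧ s.testBit (T e.unpair.2.unpair.1 x y.unpair.1) = true ∧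
    s.testBit (T e.unpair.2.unpair.2 x y.unpair.2) = true) ∨
  (e.unpair.1 = 5 ∧ ∃ u, u ≤ s ∧ (s.testBit (T e.unpair.2.unpair.2 x u) = true ∧
    s.testBit (T e.unpair.2.unpair.1 u y) = true)) ∨
  (e.unpair.1 = 6 ∧ x.unpair.2 = 0 ∧ s.testBit (T e.unpair.2.unpair.1 x.unpair.1 y) = true) ∨
  (e.unpair.1 = 6 ∧ 0 < x.unpair.2 ∧ ∃ u, u ≤ s ∧
    (s.testBit (T e (Nat.pair x.unpair.1 (x.unpair.2 - 1)) u) = true ∧
    s.testBit (T e.unpair.2.unpair.2
      (Nat.pair x.unpair.1 (Nat.pair (x.unpair.2 - 1) u)) y) = true)) := by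
  have h1 : (∃ u, u ≤ s ∧ (s.testBit (T e.unpair.2.unpair.2 x u) = true ∧
    s.testBit (T e.unpair.2.unpair.1 u y) = true)) ↔
      (∃ u, (s.testBit (T e.unpair.2.unpair.2 x u) = true ∧
    s.testBit (T e.unpair.2.unpair.1 u y) = true)) :=
    ⟨fun ⟨u, _, h⟩ => ⟨u, h⟩, fun ⟨u, h⟩ => ⟨u, (le_T _ _ _).trans (testBit_le h.1), h⟩⟩
  have h2 : (∃ u, u ≤ s ∧
    (s.testBit (T e (Nat.pair x.unpair.1 (x.unpair.2 - 1)) u) = true ∧
    s.testBit (T e.unpair.2.unpair.2
      (Nat.pair x.unpair.1 (Nat.pair (x.unpair.2 - 1) u)) y) = true)) ↔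
      (∃ u, (s.testBit (T e (Nat.pair x.unpair.1 (x.unpair.2 - 1)) u) = true ∧
    s.testBit (T e.unpair.2.unpair.2
      (Nat.pair x.unpair.1 (Nat.pair (x.unpair.2 - 1) u)) y) = true)) :=
    ⟨fun ⟨u, _, h⟩ => ⟨u, h⟩, fun ⟨u, h⟩ => ⟨u, (le_T _ _ _).trans (testBit_le h.1), h⟩⟩
  rw [h1, h2]
  rfl

theorem E2T {n : ℕ} {f g h : List.Vector ℕ n → ℕ} (hf : E2 f) (hg : E2 g) (hh : E2 h) :
    E2 fun v => T (f v) (g v) (h v) := natPair hf (natPair hg hh)

theorem just4 : @P2 4 fun v => Just (fun m => v.head.testBit m = true) v.tail.head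
    v.tail.tail.head v.tail.tail.tail.head := by
  have s : @E2 4 fun v => v.head := head
  have e : @E2 4 fun v => v.tail.head := tail head
  have x : @E2 4 fun v => v.tail.tail.head := tail (tail head)
  have y : @E2 4 fun v => v.tail.tail.tail.head := tail (tail (tail head))
  have e1 := unpair₁ e
  have cf := unpair₁ (unpair₂ e)
  have cg := unpair₂ (unpair₂ e)
  have c0 : @P2 4 fun v => v.tail.head.unpair.1 = 0 := P2.eq e1 (const 0)
  have c1 : @P2 4 fun v => v.tail.head.unpair.1 = 1 := P2.eq e1 (const 1)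
  have c2 : @P2 4 fun v => v.tail.head.unpair.1 = 2 := P2.eq e1 (const 2)
  have c3 : @P2 4 fun v => v.tail.head.unpair.1 = 3 := P2.eq e1 (const 3)
  have c4 : @P2 4 fun v => v.tail.head.unpair.1 = 4 := P2.eq e1 (const 4)
  have c5 : @P2 4 fun v => v.tail.head.unpair.1 = 5 := P2.eq e1 (const 5)
  have c6 : @P2 4 fun v => v.tail.head.unpair.1 = 6 := P2.eq e1 (const 6)
  have q5 := P2.exists_le (n := 4) s
    ((bit (n := 5) (tail s) (E2T (tail cg) (tail x) head)).and
      (bit (n := 5) (tail s) (E2T (tail cf) head (tail y))))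
  have q6 := P2.exists_le (n := 4) s
    ((bit (n := 5) (tail s) (E2T (tail e) (tail (natPair (unpair₁ x) (predd (unpair₂ x)))) head)).and
      (bit (n := 5) (tail s) (E2T (tail cg)
        (natPair (tail (unpair₁ x)) (natPair (tail (predd (unpair₂ x))) head)) (tail y))))
  have m7 := c6.and ((P2.lt (const 0) (unpair₂ x)).and q6)
  have m6 := (c6.and ((P2.eq (unpair₂ x) (const 0)).and (bit s (E2T cf (unpair₁ x) y)))).or m7
  have m5 := (c5.and q5).or m6
  have m4 := (c4.and ((bit s (E2T cf x (unpair₁ y))).and (bit s (E2T cg x (unpair₂ y))))).or m5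
  have m3 := (c3.and (P2.eq y (unpair₂ x))).or m4
  have m2 := (c2.and (P2.eq y (unpair₁ x))).or m3
  have m1 := (c1.and (P2.eq y (succc x))).or m2
  have main := (c0.and (P2.eq y (const 0))).or m1
  refine main.of_iff fun v => ?_
  rw [Just_iff]
  simp only [List.Vector.tail_cons, List.Vector.head_cons]

/-- `s` codes a closed set of statements. -/
def Cert (s : ℕ) : Prop := Closed fun m => s.testBit m = true

theorem Cert_iff (s : ℕ) : Cert s ↔ ∀ t, t ≤ s → (s.testBit t = true →
    Just (fun m => s.testBit m = true) t.unpair.1 t.unpair.2.unpair.1 t.unpair.2.unpair.2) := by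
  constructor
  · intro h t _ ht
    apply h
    simpa only [T_unpair] using ht
  · intro h e x y hP
    have := h (T e x y) (testBit_le hP) hP
    simpa [T] using this

theorem cert1 : @P2 1 fun v => Cert v.head := by
  have t : @E2 2 fun v => v.head := head
  have s : @E2 2 fun v => v.tail.head := tail head
  have hj : @P2 2 fun v => Just (fun m => v.tail.head.testBit m = true) v.head.unpair.1
      v.head.unpair.2.unpair.1 v.head.unpair.2.unpair.2 := by
    have := just4.comp' (s.cons ((unpair₁ t).cons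
      ((unpair₁ (unpair₂ t)).cons ((unpair₂ (unpair₂ t)).cons E2.nil))))
    refine this.of_iff fun v => ?_
    simp only [List.Vector.tail_cons, List.Vector.head_cons]
  have h := P2.forall_le (n := 1) (b := fun v => v.head) head ((bit s t).imp hj)
  refine h.of_iff fun v => ?_
  rw [Cert_iff]
  simp only [List.Vector.tail_cons, List.Vector.head_cons]

/-- The universal test. -/
def U (c n : ℕ) : Prop :=
  ∃ s, s ≤ n ∧ (Cert s ∧ s.testBit (T c.unpair.1 c.unpair.2 0) = true)

theorem U2 : @P2 2 fun v => U v.head v.tail.head := by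
  have s : @E2 3 fun v => v.head := head
  have c : @E2 3 fun v => v.tail.head := tail head
  have h1 : @P2 3 fun v => Cert v.head := by
    have := cert1.comp' (s.cons E2.nil)
    refine this.of_iff fun v => ?_
    simp only [List.Vector.head_cons]
  have h := P2.exists_le (n := 2) (b := fun v => v.tail.head) (tail head)
    (h1.and (bit s (E2T (unpair₁ c) (unpair₂ c) (const 0))))
  refine h.of_iff fun v => ?_
  simp only [U, List.Vector.tail_cons, List.Vector.head_cons]

end Pool.Agent.H132.Grz
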