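import Mathlib

set_option autoImplicit false

open List.Vector

namespace Pool.Agent.H132.Grz

/-- The second Grzegorczyk class: the smallest class of functions on the natural numbers
(of any number of variables, the variables being the entries of a vector) that contains zero,
successor, the projections, addition and multiplication and is closed under composition and under
bounded primitive recursion. -/
inductive E2 : ∀ {n : ℕ}, (List.Vector ℕ n → ℕ) → Prop
  | zero : @E2 0 fun _ => 0
  | succ : @E2 1 fun v => v.head + 1
  | proj {n : ℕ} (i : Fin n) : E2 fun v => v.get i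
  | add : @E2 2 fun v => v.head + v.tail.head
  | mul : @E2 2 fun v => v.head * v.tail.head
  | comp {m n : ℕ} {f : List.Vector ℕ n → ℕ} (g : Fin n → List.Vector ℕ m → ℕ) :
      E2 f → (∀ i, E2 (g i)) → E2 fun a => f (List.Vector.ofFn fun i => g i a)
  | boundedRec {n : ℕ} {f : List.Vector ℕ n → ℕ} {g : List.Vector ℕ (n + 2) → ℕ}
      {j : List.Vector ℕ (n + 1) → ℕ} :
      E2 f → E2 g → E2 j →
      (∀ v : List.Vector ℕ (n + 1),
        v.head.rec (f v.tail) (fun y IH => g (y ::ᵥ IH ::ᵥ v.tail)) ≤ j v) →
      E2 fun v : List.Vector ℕ (n + 1) =>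
        v.head.rec (f v.tail) fun y IH => g (y ::ᵥ IH ::ᵥ v.tail)

/-- `iota` is the isomorphism from the natural numbers with successor onto the structure
whose successor function is `S`, and `S` is primitive recursive: so `S` is a punctual copy and
`iota` is its isomorphism. -/
structure PunctualCopy (S : ℕ → ℕ) (iota : ℕ ≃ ℕ) : Prop where
  primrec_succ : Primrec S
  map_succ : ∀ n, iota (n + 1) = S (iota n)

/-- The function `f` read on the copy. -/
def onCopy (iota : ℕ ≃ ℕ) {k : ℕ} (f : List.Vector ℕ k → ℕ) : List.Vector ℕ k → ℕ :=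
  fun v => iota (f (v.map iota.symm))

/-- The copy is punctually standard: the functions that are primitive recursive on it are
exactly the primitive recursive functions. -/
def PunctuallyStandard (iota : ℕ ≃ ℕ) : Prop :=
  ∀ (k : ℕ) (f : List.Vector ℕ k → ℕ),
    Nat.Primrec' (onCopy iota f) ↔ Nat.Primrec' f

/-- A set of functions is a basis for punctual standardness. -/
def IsBasis (F : ∀ {k : ℕ}, (List.Vector ℕ k → ℕ) → Prop) : Prop :=
  ∀ (S : ℕ → ℕ) (iota : ℕ ≃ ℕ), PunctualCopy S iota →
    (∀ (k : ℕ) (f : List.Vector ℕ k → ℕ), F f → Nat.Primrec' (onCopy iota f)) →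
    PunctuallyStandard iota

end Pool.Agent.H132.Grz
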