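import Pool.Agent.H132.GrzDefs

set_option autoImplicit false

open List.Vector

namespace Pool.Agent.H132.Grz

namespace E2

theorem of_eq {n : ℕ} {f g : List.Vector ℕ n → ℕ} (hf : E2 f) (H : ∀ i, f i = g i) :
    E2 g :=
  (funext H : f = g) ▸ hf

theorem const {n : ℕ} : ∀ m, @E2 n fun _ => m
  | 0 => zero.comp Fin.elim0 fun i => i.elim0
  | m + 1 => succ.comp _ fun _ => const m

theorem head {n : ℕ} : @E2 n.succ List.Vector.head :=
  (proj 0).of_eq fun v => by simp [get_zero]

set_option backward.isDefEq.respectTransparency false in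
theorem tail {n : ℕ} {f : List.Vector ℕ n → ℕ} (hf : @E2 n f) : @E2 n.succ fun v => f v.tail :=
  (hf.comp _ fun i => @proj _ i.succ).of_eq fun v => by
    rw [← ofFn_get v.tail]; congr; funext i; simp

/-- A function from vectors to vectors all of whose components are in the class. -/
def Vec {n m : ℕ} (f : List.Vector ℕ n → List.Vector ℕ m) : Prop :=
  ∀ i, E2 fun v => (f v).get i

protected theorem nil {n : ℕ} : @Vec n 0 fun _ => List.Vector.nil := fun i => i.elim0

protected theorem cons {n m : ℕ} {f : List.Vector ℕ n → ℕ} {g : List.Vector ℕ n → List.Vector ℕ m}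
    (hf : @E2 n f) (hg : @Vec n m g) :
    Vec fun v => f v ::ᵥ g v := fun i => Fin.cases (by simp [*]) (fun i => by simp [hg i]) i

theorem idv {n : ℕ} : @Vec n n id :=
  proj

theorem comp' {n m : ℕ} {f : List.Vector ℕ m → ℕ} {g : List.Vector ℕ n → List.Vector ℕ m}
    (hf : @E2 m f) (hg : @Vec n m g) : E2 fun v => f (g v) :=
  (hf.comp _ hg).of_eq fun v => by simp

theorem comp₁ (f : ℕ → ℕ) (hf : @E2 1 fun v => f v.head) {n : ℕ} {g : List.Vector ℕ n → ℕ}
    (hg : @E2 n g) : E2 fun v => f (g v) :=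
  hf.comp _ fun _ => hg

theorem comp₂ (f : ℕ → ℕ → ℕ) (hf : @E2 2 fun v => f v.head v.tail.head) {n : ℕ}
    {g h : List.Vector ℕ n → ℕ}
    (hg : @E2 n g) (hh : @E2 n h) : E2 fun v => f (g v) (h v) := by
  simpa using hf.comp' (hg.cons <| hh.cons E2.nil)

theorem rec' {n : ℕ} {f g : List.Vector ℕ n → ℕ} {h : List.Vector ℕ (n + 2) → ℕ}
    {j : List.Vector ℕ (n + 1) → ℕ} (hf : @E2 n f) (hg : @E2 n g)
    (hh : @E2 (n + 2) h) (hj : @E2 (n + 1) j)
    (hb : ∀ (y : ℕ) (v : List.Vector ℕ n),
      y.rec (g v) (fun y IH : ℕ => h (y ::ᵥ IH ::ᵥ v)) ≤ j (y ::ᵥ v)) :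
    @E2 n fun v => (f v).rec (g v) fun y IH : ℕ => h (y ::ᵥ IH ::ᵥ v) := by
  have h1 := boundedRec hg hh hj (fun v => by
    have := hb v.head v.tail
    rwa [List.Vector.cons_head_tail] at this)
  simpa using comp' h1 (hf.cons idv)

theorem pred : @E2 1 fun v => v.head - 1 :=
  (rec' (j := fun v => v.head) head (const 0) head head (by
    intro y v
    cases y with
    | zero => simp
    | succ y => simp)).of_eq fun v => by simp; cases v.head <;> rfl

theorem addd {n : ℕ} {f g : List.Vector ℕ n → ℕ} (hf : E2 f) (hg : E2 g) :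
    E2 fun v => f v + g v := comp₂ (· + ·) add hf hg

theorem mull {n : ℕ} {f g : List.Vector ℕ n → ℕ} (hf : E2 f) (hg : E2 g) :
    E2 fun v => f v * g v := comp₂ (· * ·) mul hf hg

theorem succc {n : ℕ} {f : List.Vector ℕ n → ℕ} (hf : E2 f) :
    E2 fun v => f v + 1 := comp₁ (· + 1) succ hf

theorem predd {n : ℕ} {f : List.Vector ℕ n → ℕ} (hf : E2 f) :
    E2 fun v => f v - 1 := comp₁ (· - 1) pred hf

theorem sub : @E2 2 fun v => v.head - v.tail.head := by
  have h : @E2 2 fun v ↦ v.tail.head - v.head := by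
    refine (rec' (n := 2) (f := fun v => v.head) (g := fun v => v.tail.head)
      (h := fun w => w.tail.head - 1) (j := fun w => w.tail.tail.head)
      head (tail head) (predd (tail head)) (tail (tail head)) ?_).of_eq fun v => ?_
    · intro y v
      induction y with
      | zero => simp
      | succ y ih =>
        simp only [List.Vector.tail_cons, List.Vector.head_cons] at ih ⊢
        exact (Nat.sub_le _ _).trans ih
    · simp only [List.Vector.tail_cons, List.Vector.head_cons]
      induction v.head with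
      | zero => simp
      | succ y ih => simp only [ih]; omega
  simpa using h.comp' ((tail head).cons (head.cons E2.nil))

theorem subb {n : ℕ} {f g : List.Vector ℕ n → ℕ} (hf : E2 f) (hg : E2 g) :
    E2 fun v => f v - g v := comp₂ (· - ·) sub hf hg

theorem if_lt {n : ℕ} {a b f g : List.Vector ℕ n → ℕ} (ha : @E2 n a) (hb : @E2 n b)
    (hf : @E2 n f) (hg : @E2 n g) : @E2 n fun v => if a v < b v then f v else g v :=
  (rec' (f := fun v => b v - a v) (g := g) (h := fun w => f w.tail.tail)
    (j := fun w => f w.tail + g w.tail)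
    (subb hb ha) hg (tail <| tail hf) (addd (tail hf) (tail hg)) (by
      intro y v
      cases y with
      | zero => simp
      | succ y => simp)).of_eq fun v => by
    cases e : b v - a v
    · simp [not_lt.2 (Nat.sub_eq_zero_iff_le.mp e)]
    · simp [Nat.lt_of_sub_eq_succ e]

theorem natPair {n : ℕ} {f g : List.Vector ℕ n → ℕ} (hf : E2 f) (hg : E2 g) :
    E2 fun v => Nat.pair (f v) (g v) := by
  unfold Nat.pair
  exact if_lt hf hg (addd (mull hg hg) hf) (addd (addd (mull hf hf) hf) hg)

theorem sqrt : @E2 1 fun v => v.head.sqrt := by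
  have H : ∀ n : ℕ, n.rec 0 (fun x y => if x.succ < y.succ * y.succ then y else y.succ)
      = n.sqrt := by
    intro n
    induction n with
    | zero => simp
    | succ n IH =>
      dsimp; rw [IH]; split_ifs with h
      · exact le_antisymm (Nat.sqrt_le_sqrt (Nat.le_succ _))
          (Nat.lt_succ_iff.1 <| Nat.sqrt_lt.2 h)
      · exact (Nat.eq_sqrt.2
          ⟨not_lt.1 h, Nat.sqrt_lt.1 <| Nat.lt_succ_iff.2 <|
            Nat.sqrt_succ_le_succ_sqrt _⟩)
  have x1 : @E2 3 fun v => v.head + 1 := succc head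
  have y1 : @E2 3 fun v => v.tail.head + 1 := succc (tail head)
  have hh : @E2 3 fun v => if v.head + 1 < (v.tail.head + 1) * (v.tail.head + 1)
      then v.tail.head else v.tail.head + 1 :=
    if_lt x1 (mull y1 y1) (tail head) y1
  refine (rec' (n := 1) (f := fun v => v.head) (g := fun _ => 0) (j := fun w => w.head)
    head (const 0) hh head ?_).of_eq fun v => ?_
  · intro y v
    have := H y
    simp only [List.Vector.tail_cons, List.Vector.head_cons, Nat.succ_eq_add_one] at this ⊢
    rw [this]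
    exact Nat.sqrt_le_self y
  · have := H v.head
    simp only [List.Vector.tail_cons, List.Vector.head_cons, Nat.succ_eq_add_one] at this ⊢
    exact this

theorem sqrtt {n : ℕ} {f : List.Vector ℕ n → ℕ} (hf : E2 f) :
    E2 fun v => (f v).sqrt := comp₁ Nat.sqrt sqrt hf

theorem unpair₁ {n : ℕ} {f : List.Vector ℕ n → ℕ} (hf : @E2 n f) :
    @E2 n fun v => (f v).unpair.1 := by
  have s := sqrtt hf
  have fss := subb hf (mull s s)
  refine (if_lt fss s fss s).of_eq fun v => ?_
  simp only [Nat.unpair]; split_ifs <;> rfl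

theorem unpair₂ {n : ℕ} {f : List.Vector ℕ n → ℕ} (hf : @E2 n f) :
    @E2 n fun v => (f v).unpair.2 := by
  have s := sqrtt hf
  have fss := subb hf (mull s s)
  refine (if_lt fss s s (subb fss s)).of_eq fun v => ?_
  simp only [Nat.unpair]; split_ifs <;> rfl

end E2

open Classical in
/-- Predicates whose characteristic function is in the class. -/
def P2 {n : ℕ} (p : List.Vector ℕ n → Prop) : Prop := E2 fun v => if p v then 1 else 0

namespace P2

open E2 Classical

theorem of_iff {n : ℕ} {p q : List.Vector ℕ n → Prop} (hp : P2 p) (h : ∀ v, p v ↔ q v) : P2 q :=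
  (funext fun v => propext (h v) : p = q) ▸ hp

theorem comp' {n m : ℕ} {p : List.Vector ℕ m → Prop} {g : List.Vector ℕ n → List.Vector ℕ m}
    (hp : @P2 m p) (hg : @Vec n m g) : P2 fun v => p (g v) :=
  E2.comp' (f := fun v => if p v then 1 else 0) hp hg

theorem comp₂ (p : ℕ → ℕ → Prop) (hp : @P2 2 fun v => p v.head v.tail.head) {n : ℕ}
    {g h : List.Vector ℕ n → ℕ}
    (hg : @E2 n g) (hh : @E2 n h) : P2 fun v => p (g v) (h v) := by
  simpa using hp.comp' (hg.cons <| hh.cons E2.nil)

theorem ite {n : ℕ} {p : List.Vector ℕ n → Prop} {f g : List.Vector ℕ n → ℕ}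
    (hp : P2 p) (hf : E2 f) (hg : E2 g) : E2 fun v => if p v then f v else g v := by
  have h : E2 fun v => if (0 : ℕ) < (if p v then 1 else 0) then f v else g v :=
    if_lt (const 0) hp hf hg
  refine h.of_eq fun v => ?_
  by_cases hv : p v <;> simp [hv]

theorem lt {n : ℕ} {f g : List.Vector ℕ n → ℕ} (hf : E2 f) (hg : E2 g) :
    P2 fun v => f v < g v := by
  refine (if_lt hf hg (const 1) (const 0)).of_eq fun v => ?_
  by_cases hv : f v < g v <;> simp [hv]

theorem not {n : ℕ} {p : List.Vector ℕ n → Prop} (hp : P2 p) : P2 fun v => ¬ p v := by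
  refine (ite hp (const 0) (const 1)).of_eq fun v => ?_
  by_cases hv : p v <;> simp [hv]

theorem and {n : ℕ} {p q : List.Vector ℕ n → Prop} (hp : P2 p) (hq : P2 q) :
    P2 fun v => p v ∧ q v := by
  refine (ite hp hq (const 0)).of_eq fun v => ?_
  by_cases hv : p v <;> simp [hv]

theorem or {n : ℕ} {p q : List.Vector ℕ n → Prop} (hp : P2 p) (hq : P2 q) :
    P2 fun v => p v ∨ q v := by
  refine (ite hp (const 1) hq).of_eq fun v => ?_
  by_cases hv : p v <;> simp [hv]

theorem imp {n : ℕ} {p q : List.Vector ℕ n → Prop} (hp : P2 p) (hq : P2 q) :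
    P2 fun v => p v → q v := by
  refine (hp.not.or hq).of_iff fun v => ?_
  tauto

theorem le {n : ℕ} {f g : List.Vector ℕ n → ℕ} (hf : E2 f) (hg : E2 g) :
    P2 fun v => f v ≤ g v := by
  refine (lt hg hf).not.of_iff fun v => ?_
  exact not_lt

theorem eq {n : ℕ} {f g : List.Vector ℕ n → ℕ} (hf : E2 f) (hg : E2 g) :
    P2 fun v => f v = g v := by
  refine ((le hf hg).and (le hg hf)).of_iff fun v => ?_
  exact ⟨fun h => le_antisymm h.1 h.2, fun h => ⟨h.le, h.ge⟩⟩

/-- Bounded existential quantifier. -/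
theorem exists_lt {n : ℕ} {b : List.Vector ℕ n → ℕ} {p : List.Vector ℕ (n + 1) → Prop}
    (hb : E2 b) (hp : P2 p) : P2 fun v => ∃ u, u < b v ∧ p (u ::ᵥ v) := by
  have hstep : @E2 (n + 2) fun w : List.Vector ℕ (n + 2) =>
      if p (w.head ::ᵥ (w.tail.tail : List.Vector ℕ n)) then 1 else w.tail.head := by
    refine ite (p := fun w : List.Vector ℕ (n + 2) => p (w.head ::ᵥ w.tail.tail)) ?_
      (const 1) (tail head)
    exact hp.comp' (head.cons (fun i => (tail (tail (proj i)))))
  have H : ∀ (y : ℕ) (v : List.Vector ℕ n),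
      (y.rec 0 (fun y IH : ℕ => if p (y ::ᵥ v) then 1 else IH) : ℕ)
        = if (∃ u, u < y ∧ p (u ::ᵥ v)) then 1 else 0 := by
    intro y v
    induction y with
    | zero => simp
    | succ y ih =>
      simp only [ih]
      by_cases h1 : p (y ::ᵥ v)
      · rw [if_pos h1, if_pos ⟨y, Nat.lt_succ_self y, h1⟩]
      · rw [if_neg h1]
        have : (∃ u, u < y + 1 ∧ p (u ::ᵥ v)) ↔ (∃ u, u < y ∧ p (u ::ᵥ v)) := by
          constructor
          · rintro ⟨u, hu, hpu⟩
            rcases Nat.lt_succ_iff_lt_or_eq.mp hu with h | h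
            · exact ⟨u, h, hpu⟩
            · subst h; exact absurd hpu h1
          · rintro ⟨u, hu, hpu⟩
            exact ⟨u, hu.trans (Nat.lt_succ_self y), hpu⟩
        simp only [this]
  refine (rec' (f := b) (g := fun _ => 0)
    (h := fun w : List.Vector ℕ (n + 2) => if p (w.head ::ᵥ w.tail.tail) then 1 else w.tail.head)
    (j := fun _ => 1) hb (const 0) hstep (const 1) ?_).of_eq fun v => ?_
  · intro y v
    have := H y v
    simp only [List.Vector.tail_cons, List.Vector.head_cons] at this ⊢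
    rw [this]
    split_ifs <;> omega
  · have := H (b v) v
    simp only [List.Vector.tail_cons, List.Vector.head_cons] at this ⊢
    convert this

theorem exists_le {n : ℕ} {b : List.Vector ℕ n → ℕ} {p : List.Vector ℕ (n + 1) → Prop}
    (hb : E2 b) (hp : P2 p) : P2 fun v => ∃ u, u ≤ b v ∧ p (u ::ᵥ v) := by
  refine (exists_lt (succc hb) hp).of_iff fun v => ?_
  simp only [Nat.lt_succ_iff]

theorem forall_le {n : ℕ} {b : List.Vector ℕ n → ℕ} {p : List.Vector ℕ (n + 1) → Prop}
    (hb : E2 b) (hp : P2 p) : P2 fun v => ∀ u, u ≤ b v → p (u ::ᵥ v) := by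
  refine (exists_le hb hp.not).not.of_iff fun v => ?_
  constructor
  · intro h u hu
    by_contra hc
    exact h ⟨u, hu, hc⟩
  · rintro h ⟨u, hu, hc⟩
    exact hc (h u hu)

end P2

end Pool.Agent.H132.Grz
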