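import Pool.Agent.H132.GrzCert

set_option autoImplicit false

open List.Vector

namespace Pool.Agent.H132.Grz

theorem T_inj {e x y e' x' y' : ℕ} (h : T e x y = T e' x' y') : e = e' ∧ x = x' ∧ y = y' := by
  unfold T at h
  rw [Nat.pair_eq_pair, Nat.pair_eq_pair] at h
  exact h

theorem Just.mono {P Q : ℕ → Prop} (h : ∀ t, P t → Q t) {e x y : ℕ} (hJ : Just P e x y) :
    Just Q e x y := by
  rcases hJ with h1 | h1 | h1 | h1 | ⟨h1, h2, h3⟩ | ⟨h1, u, h2, h3⟩ | ⟨h1, h2, h3⟩ | ⟨h1, h2, u, h3, h4⟩
  · exact Or.inl h1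
  · exact Or.inr (Or.inl h1)
  · exact Or.inr (Or.inr (Or.inl h1))
  · exact Or.inr (Or.inr (Or.inr (Or.inl h1)))
  · exact Or.inr (Or.inr (Or.inr (Or.inr (Or.inl ⟨h1, h _ h2, h _ h3⟩))))
  · exact Or.inr (Or.inr (Or.inr (Or.inr (Or.inr (Or.inl ⟨h1, u, h _ h2, h _ h3⟩)))))
  · exact Or.inr (Or.inr (Or.inr (Or.inr (Or.inr (Or.inr (Or.inl ⟨h1, h2, h _ h3⟩))))))
  · exact Or.inr (Or.inr (Or.inr (Or.inr (Or.inr (Or.inr (Or.inr ⟨h1, h2, u, h _ h3, h _ h4⟩))))))

theorem closed_union {S S' : Finset ℕ} (h : Closed (· ∈ S)) (h' : Closed (· ∈ S')) :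
    Closed (· ∈ S ∪ S') := by
  intro e x y hP
  rcases Finset.mem_union.mp hP with h1 | h1
  · exact (h e x y h1).mono fun t ht => Finset.mem_union_left _ ht
  · exact (h' e x y h1).mono fun t ht => Finset.mem_union_right _ ht

theorem closed_insert {S : Finset ℕ} (h : Closed (· ∈ S)) {e x y : ℕ}
    (hJ : Just (· ∈ S) e x y) : Closed (· ∈ insert (T e x y) S) := by
  intro e' x' y' hP
  rcases Finset.mem_insert.mp hP with h1 | h1
  · obtain ⟨rfl, rfl, rfl⟩ := T_inj h1
    exact hJ.mono fun t ht => Finset.mem_insert_of_mem ht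
  · exact (h e' x' y' h1).mono fun t ht => Finset.mem_insert_of_mem ht

theorem closed_empty : Closed (· ∈ (∅ : Finset ℕ)) := by
  intro e x y hP
  simp at hP

/-- `e` is a code of `f` with certificates bounded by `B`. -/
structure Codes (f : ℕ → ℕ) (e : ℕ) (B : ℕ → ℕ) : Prop where
  primrec : Primrec B
  complete : ∀ x, ∃ S : Finset ℕ, Closed (· ∈ S) ∧ T e x (f x) ∈ S ∧ ∀ t ∈ S, t ≤ B x
  sound : ∀ P : ℕ → Prop, Closed P → ∀ x y, P (T e x y) → y = f x

theorem primrec_T : Primrec fun p : ℕ × ℕ × ℕ => T p.1 p.2.1 p.2.2 := by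
  unfold T
  exact Primrec₂.natPair.comp Primrec.fst
    (Primrec₂.natPair.comp (Primrec.fst.comp Primrec.snd) (Primrec.snd.comp Primrec.snd))

theorem primrec_T' {α : Type*} [Primcodable α] {f g h : α → ℕ} (hf : Primrec f) (hg : Primrec g)
    (hh : Primrec h) : Primrec fun a => T (f a) (g a) (h a) := by
  unfold T
  exact Primrec₂.natPair.comp hf (Primrec₂.natPair.comp hg hh)

theorem codes_basic {f : ℕ → ℕ} (e : ℕ) (hf : Primrec f)
    (h1 : ∀ x P, Just P e x (f x)) (h2 : ∀ x y P, Just P e x y → y = f x) :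
    Codes f e (fun x => T e x (f x)) where
  primrec := primrec_T' (Primrec.const e) Primrec.id hf
  complete := fun x => ⟨insert (T e x (f x)) ∅, closed_insert closed_empty (h1 x _),
    Finset.mem_insert_self _ _, by intro t ht; simp at ht; exact ht.le⟩
  sound := fun P hP x y h => h2 x y P (hP e x y h)

theorem codes_zero : ∃ e B, Codes (fun _ => 0) e B := by
  refine ⟨Nat.pair 0 0, _, codes_basic _ (Primrec.const 0) ?_ ?_⟩
  · intro x P; simp [Just]
  · intro x y P h; simpa [Just] using h

theorem codes_succ : ∃ e B, Codes Nat.succ e B := by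
  refine ⟨Nat.pair 1 0, _, codes_basic _ Primrec.succ ?_ ?_⟩
  · intro x P; simp [Just]
  · intro x y P h; simpa [Just] using h

theorem codes_left : ∃ e B, Codes (fun n => n.unpair.1) e B := by
  refine ⟨Nat.pair 2 0, _, codes_basic _ (Primrec.fst.comp Primrec.unpair) ?_ ?_⟩
  · intro x P; simp [Just]
  · intro x y P h; simpa [Just] using h

theorem codes_right : ∃ e B, Codes (fun n => n.unpair.2) e B := by
  refine ⟨Nat.pair 3 0, _, codes_basic _ (Primrec.snd.comp Primrec.unpair) ?_ ?_⟩
  · intro x P; simp [Just]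
  · intro x y P h; simpa [Just] using h

theorem codes_pair {f g : ℕ → ℕ} (hf' : Primrec f) (hg' : Primrec g)
    (hf : ∃ e B, Codes f e B) (hg : ∃ e B, Codes g e B) :
    ∃ e B, Codes (fun n => Nat.pair (f n) (g n)) e B := by
  obtain ⟨ef, Bf, hf⟩ := hf
  obtain ⟨eg, Bg, hg⟩ := hg
  set e := Nat.pair 4 (Nat.pair ef eg) with he
  refine ⟨e, fun x => Bf x + Bg x + T e x (Nat.pair (f x) (g x)), ⟨?_, ?_, ?_⟩⟩
  · exact Primrec.nat_add.comp (Primrec.nat_add.comp hf.primrec hg.primrec)
      (primrec_T' (Primrec.const e) Primrec.id (Primrec₂.natPair.comp hf' hg'))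
  · intro x
    obtain ⟨S1, c1, m1, b1⟩ := hf.complete x
    obtain ⟨S2, c2, m2, b2⟩ := hg.complete x
    refine ⟨insert (T e x (Nat.pair (f x) (g x))) (S1 ∪ S2),
      closed_insert (closed_union c1 c2) ?_, Finset.mem_insert_self _ _, ?_⟩
    · refine Or.inr (Or.inr (Or.inr (Or.inr (Or.inl ⟨by simp [he], ?_, ?_⟩))))
      · simp only [he, Nat.unpair_pair]
        exact Finset.mem_union_left _ m1
      · simp only [he, Nat.unpair_pair]
        exact Finset.mem_union_right _ m2
    · intro t ht
      rcases Finset.mem_insert.mp ht with h | h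
      · subst h; exact Nat.le_add_left _ _
      · rcases Finset.mem_union.mp h with h | h
        · have := b1 t h; omega
        · have := b2 t h; omega
  · intro P hP x y h
    have h1 := hP e x y h
    simp only [Just, he, Nat.unpair_pair] at h1
    have h2 : P (T ef x y.unpair.1) ∧ P (T eg x y.unpair.2) := by simpa using h1
    rw [← hf.sound P hP _ _ h2.1, ← hg.sound P hP _ _ h2.2, Nat.pair_unpair]

theorem codes_comp {f g : ℕ → ℕ} (hf' : Primrec f) (hg' : Primrec g)
    (hf : ∃ e B, Codes f e B) (hg : ∃ e B, Codes g e B) :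
    ∃ e B, Codes (fun n => f (g n)) e B := by
  obtain ⟨ef, Bf, hf⟩ := hf
  obtain ⟨eg, Bg, hg⟩ := hg
  set e := Nat.pair 5 (Nat.pair ef eg) with he
  refine ⟨e, fun x => Bg x + Bf (g x) + T e x (f (g x)), ⟨?_, ?_, ?_⟩⟩
  · exact Primrec.nat_add.comp (Primrec.nat_add.comp hg.primrec (hf.primrec.comp hg'))
      (primrec_T' (Primrec.const e) Primrec.id (hf'.comp hg'))
  · intro x
    obtain ⟨S1, c1, m1, b1⟩ := hg.complete x
    obtain ⟨S2, c2, m2, b2⟩ := hf.complete (g x)
    refine ⟨insert (T e x (f (g x))) (S1 ∪ S2),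
      closed_insert (closed_union c1 c2) ?_, Finset.mem_insert_self _ _, ?_⟩
    · refine Or.inr (Or.inr (Or.inr (Or.inr (Or.inr (Or.inl ⟨by simp [he], g x, ?_, ?_⟩)))))
      · simp only [he, Nat.unpair_pair]
        exact Finset.mem_union_left _ m1
      · simp only [he, Nat.unpair_pair]
        exact Finset.mem_union_right _ m2
    · intro t ht
      rcases Finset.mem_insert.mp ht with h | h
      · subst h; exact Nat.le_add_left _ _
      · rcases Finset.mem_union.mp h with h | h
        · have := b1 t h; omega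
        · have := b2 t h; omega
  · intro P hP x y h
    have h1 := hP e x y h
    simp only [Just, he, Nat.unpair_pair] at h1
    have h2 : ∃ u, P (T eg x u) ∧ P (T ef u y) := by simpa using h1
    obtain ⟨u, h3, h4⟩ := h2
    have h5 := hg.sound P hP _ _ h3
    subst h5
    exact hf.sound P hP _ _ h4

/-- The function defined by primitive recursion. -/
def R (f g : ℕ → ℕ) (z n : ℕ) : ℕ :=
  n.rec (f z) fun y IH => g (Nat.pair z (Nat.pair y IH))

theorem R_succ (f g : ℕ → ℕ) (z n : ℕ) :
    R f g z (n + 1) = g (Nat.pair z (Nat.pair n (R f g z n))) := rfl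

theorem primrec_R {f g : ℕ → ℕ} (hf : Primrec f) (hg : Primrec g) : Primrec₂ (R f g) := by
  unfold R
  refine Primrec.nat_rec' (f := fun p : ℕ × ℕ => p.2) (g := fun p : ℕ × ℕ => f p.1)
    (h := fun p q => g (Nat.pair p.1 (Nat.pair q.1 q.2))) Primrec.snd (hf.comp Primrec.fst) ?_
  exact (hg.comp (Primrec₂.natPair.comp (Primrec.fst.comp Primrec.fst)
    (Primrec₂.natPair.comp (Primrec.fst.comp Primrec.snd) (Primrec.snd.comp Primrec.snd)))).to₂

/-- The bound for certificates of a function defined by primitive recursion. -/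
def BR (f g Bf Bg : ℕ → ℕ) (e z n : ℕ) : ℕ :=
  n.rec (Bf z + T e (Nat.pair z 0) (f z)) fun k IH =>
    IH + Bg (Nat.pair z (Nat.pair k (R f g z k))) + T e (Nat.pair z (k + 1)) (R f g z (k + 1))

theorem primrec_BR {f g Bf Bg : ℕ → ℕ} (e : ℕ) (hf : Primrec f) (hg : Primrec g)
    (hBf : Primrec Bf) (hBg : Primrec Bg) : Primrec fun x : ℕ => BR f g Bf Bg e x.unpair.1 x.unpair.2 := by
  unfold BR
  have z1 : Primrec fun x : ℕ => x.unpair.1 := Primrec.fst.comp Primrec.unpair
  have n1 : Primrec fun x : ℕ => x.unpair.2 := Primrec.snd.comp Primrec.unpair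
  refine Primrec.nat_rec' (f := fun x : ℕ => x.unpair.2)
    (g := fun x : ℕ => Bf x.unpair.1 + T e (Nat.pair x.unpair.1 0) (f x.unpair.1))
    (h := fun x q => q.2 + Bg (Nat.pair x.unpair.1 (Nat.pair q.1 (R f g x.unpair.1 q.1))) +
      T e (Nat.pair x.unpair.1 (q.1 + 1)) (R f g x.unpair.1 (q.1 + 1))) n1 ?_ ?_
  · exact Primrec.nat_add.comp (hBf.comp z1)
      (primrec_T' (Primrec.const e) (Primrec₂.natPair.comp z1 (Primrec.const 0)) (hf.comp z1))
  · have z2 : Primrec fun p : ℕ × ℕ × ℕ => p.1.unpair.1 := z1.comp Primrec.fst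
    have k2 : Primrec fun p : ℕ × ℕ × ℕ => p.2.1 := Primrec.fst.comp Primrec.snd
    have i2 : Primrec fun p : ℕ × ℕ × ℕ => p.2.2 := Primrec.snd.comp Primrec.snd
    have k3 : Primrec fun p : ℕ × ℕ × ℕ => p.2.1 + 1 := Primrec.succ.comp k2
    have r2 : Primrec fun p : ℕ × ℕ × ℕ => R f g p.1.unpair.1 p.2.1 :=
      (primrec_R hf hg).comp z2 k2
    have r3 : Primrec fun p : ℕ × ℕ × ℕ => R f g p.1.unpair.1 (p.2.1 + 1) :=
      (primrec_R hf hg).comp z2 k3
    exact (Primrec.nat_add.comp (Primrec.nat_add.comp i2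
      (hBg.comp (Primrec₂.natPair.comp z2 (Primrec₂.natPair.comp k2 r2))))
      (primrec_T' (Primrec.const e) (Primrec₂.natPair.comp z2 k3) r3)).to₂

theorem codes_prec {f g : ℕ → ℕ} (hf' : Primrec f) (hg' : Primrec g)
    (hf : ∃ e B, Codes f e B) (hg : ∃ e B, Codes g e B) :
    ∃ e B, Codes (fun x => R f g x.unpair.1 x.unpair.2) e B := by
  obtain ⟨ef, Bf, hf⟩ := hf
  obtain ⟨eg, Bg, hg⟩ := hg
  set e := Nat.pair 6 (Nat.pair ef eg) with he
  refine ⟨e, fun x => BR f g Bf Bg e x.unpair.1 x.unpair.2, ⟨?_, ?_, ?_⟩⟩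
  · exact primrec_BR e hf' hg' hf.primrec hg.primrec
  · have key : ∀ z n : ℕ, ∃ S : Finset ℕ, Closed (· ∈ S) ∧ T e (Nat.pair z n) (R f g z n) ∈ S ∧
        ∀ t ∈ S, t ≤ BR f g Bf Bg e z n := by
      intro z n
      induction n with
      | zero =>
        obtain ⟨S1, c1, m1, b1⟩ := hf.complete z
        refine ⟨insert (T e (Nat.pair z 0) (R f g z 0)) S1, closed_insert c1 ?_,
          Finset.mem_insert_self _ _, ?_⟩
        · refine Or.inr (Or.inr (Or.inr (Or.inr (Or.inr (Or.inr (Or.inl
            ⟨by simp [he], by simp, ?_⟩))))))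
          simp only [he, Nat.unpair_pair]
          exact m1
        · intro t ht
          rcases Finset.mem_insert.mp ht with h | h
          · subst h; exact Nat.le_add_left _ _
          · exact (b1 t h).trans (Nat.le_add_right _ _)
      | succ n ih =>
        obtain ⟨S1, c1, m1, b1⟩ := ih
        obtain ⟨S2, c2, m2, b2⟩ := hg.complete (Nat.pair z (Nat.pair n (R f g z n)))
        refine ⟨insert (T e (Nat.pair z (n + 1)) (R f g z (n + 1))) (S1 ∪ S2),
          closed_insert (closed_union c1 c2) ?_, Finset.mem_insert_self _ _, ?_⟩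
        · refine Or.inr (Or.inr (Or.inr (Or.inr (Or.inr (Or.inr (Or.inr
            ⟨by simp [he], by simp, R f g z n, ?_, ?_⟩))))))
          · simp only [Nat.unpair_pair, Nat.add_sub_cancel]
            exact Finset.mem_union_left _ m1
          · simp only [he, Nat.unpair_pair, Nat.add_sub_cancel]
            exact Finset.mem_union_right _ m2
        · have hBR : BR f g Bf Bg e z (n + 1) = BR f g Bf Bg e z n +
              Bg (Nat.pair z (Nat.pair n (R f g z n))) +
              T e (Nat.pair z (n + 1)) (R f g z (n + 1)) := rfl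
          intro t ht
          rw [hBR]
          rcases Finset.mem_insert.mp ht with h | h
          · subst h; exact Nat.le_add_left _ _
          · rcases Finset.mem_union.mp h with h | h
            · have := b1 t h; omega
            · have := b2 t h; omega
    intro x
    obtain ⟨S, h1, h2, h3⟩ := key x.unpair.1 x.unpair.2
    rw [Nat.pair_unpair] at h2
    exact ⟨S, h1, h2, h3⟩
  · intro P hP
    have key : ∀ n z y, P (T e (Nat.pair z n) y) → y = R f g z n := by
      intro n
      induction n with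
      | zero =>
        intro z y h
        have h1 := hP e _ y h
        simp only [Just, he, Nat.unpair_pair] at h1
        have h2 : P (T ef z y) := by simpa using h1
        exact hf.sound P hP _ _ h2
      | succ n ih =>
        intro z y h
        have h1 := hP e _ y h
        simp only [Just, Nat.unpair_pair, Nat.add_sub_cancel] at h1
        have h2 : ∃ u, P (T e (Nat.pair z n) u) ∧
            P (T eg (Nat.pair z (Nat.pair n u)) y) := by
          rcases h1 with h1 | h1 | h1 | h1 | h1 | h1 | h1 | ⟨-, -, u, h3, h4⟩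
          · simp [he] at h1
          · simp [he] at h1
          · simp [he] at h1
          · simp [he] at h1
          · simp [he] at h1
          · simp [he] at h1
          · simp at h1
          · refine ⟨u, h3, ?_⟩
            simpa only [he, Nat.unpair_pair] using h4
        obtain ⟨u, h3, h4⟩ := h2
        have h5 := ih z u h3
        subst h5
        exact hg.sound P hP _ _ h4
    intro x y h
    apply key
    rwa [Nat.pair_unpair]

theorem codes_exist {f : ℕ → ℕ} (hf : Nat.Primrec f) : ∃ e B, Codes f e B := by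
  induction hf with
  | zero => exact codes_zero
  | succ => exact codes_succ
  | left => exact codes_left
  | right => exact codes_right
  | pair h1 h2 ih1 ih2 =>
    exact codes_pair (Primrec.nat_iff.mpr h1) (Primrec.nat_iff.mpr h2) ih1 ih2
  | comp h1 h2 ih1 ih2 =>
    exact codes_comp (Primrec.nat_iff.mpr h1) (Primrec.nat_iff.mpr h2) ih1 ih2
  | prec h1 h2 ih1 ih2 =>
    exact codes_prec (Primrec.nat_iff.mpr h1) (Primrec.nat_iff.mpr h2) ih1 ih2

theorem exists_code (P : ℕ → Prop) (b : ℕ) :
    ∃ s, s < 2 ^ b ∧ ∀ t, s.testBit t = true ↔ t < b ∧ P t := by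
  classical
  induction b with
  | zero => exact ⟨0, by simp, by simp⟩
  | succ b ih =>
    obtain ⟨s, h1, h2⟩ := ih
    by_cases hb : P b
    · refine ⟨s ||| 2 ^ b, ?_, ?_⟩
      · exact Nat.or_lt_two_pow (h1.trans (Nat.pow_lt_pow_right (by norm_num) (Nat.lt_succ_self b)))
          (Nat.pow_lt_pow_right (by norm_num) (Nat.lt_succ_self b))
      · intro t
        rw [Nat.testBit_or, Bool.or_eq_true, h2, Nat.testBit_two_pow]
        constructor
        · rintro (h | h)
          · exact ⟨by omega, h.2⟩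
          · have : b = t := by simpa using h
            subst this
            exact ⟨by omega, hb⟩
        · rintro ⟨h3, h4⟩
          by_cases h5 : t = b
          · right; simp [h5]
          · left; exact ⟨by omega, h4⟩
    · refine ⟨s, h1.trans (Nat.pow_lt_pow_right (by norm_num) (Nat.lt_succ_self b)), ?_⟩
      intro t
      rw [h2]
      constructor
      · rintro ⟨h3, h4⟩; exact ⟨by omega, h4⟩
      · rintro ⟨h3, h4⟩
        refine ⟨?_, h4⟩
        by_contra hc
        have : t = b := by omega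
        subst this
        exact hb h4

/-- The key property of the universal test. -/
theorem U_spec {f : ℕ → ℕ} {e : ℕ} {B : ℕ → ℕ} (h : Codes f e B) (m n : ℕ)
    (hn : 2 ^ (B m + 1) ≤ n) : U (Nat.pair e m) n ↔ f m = 0 := by
  unfold U
  simp only [Nat.unpair_pair]
  constructor
  · rintro ⟨s, -, h1, h2⟩
    exact (h.sound _ h1 _ _ h2).symm
  · intro h0
    obtain ⟨S, c, hm, hb⟩ := h.complete m
    obtain ⟨s, h1, h2⟩ := exists_code (· ∈ S) (B m + 1)
    have hiff : ∀ t, s.testBit t = true ↔ t ∈ S := by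
      intro t
      rw [h2]
      exact ⟨fun h => h.2, fun h => ⟨Nat.lt_succ_of_le (hb t h), h⟩⟩
    refine ⟨s, h1.le.trans hn, ?_, ?_⟩
    · intro e' x' y' hP
      exact (c e' x' y' ((hiff _).mp hP)).mono fun t ht => (hiff t).mpr ht
    · rw [hiff, ← h0]
      exact hm

open Classical in
theorem primrec_iota {S : ℕ → ℕ} {iota : ℕ ≃ ℕ} (h : PunctualCopy S iota) :
    Primrec iota := by
  have h1 : ∀ n, iota n = Nat.rec (iota 0) (fun _ IH => S IH) n := by
    intro n
    induction n with
    | zero => rfl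
    | succ n ih => rw [h.map_succ, ih]
  have h2 : Primrec (fun n : ℕ => (Nat.rec (iota 0) (fun _ IH => S IH) n : ℕ)) :=
    Primrec.nat_rec₁ (iota 0) (h.primrec_succ.comp Primrec.snd).to₂
  exact h2.of_eq fun n => (h1 n).symm

open Classical in
/-- The characteristic function of the universal test. -/
noncomputable def univ (v : List.Vector ℕ 2) : ℕ := if U v.head v.tail.head then 1 else 0

theorem univ_E2 : E2 univ := U2

theorem univ_le (v : List.Vector ℕ 2) : univ v ≤ 1 := by
  unfold univ; split_ifs <;> omega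

open Classical in
theorem primrec_symm {S : ℕ → ℕ} {iota : ℕ ≃ ℕ} (h : PunctualCopy S iota)
    (hE : Nat.Primrec' (onCopy iota univ)) :
    Primrec iota.symm := by
  have hi := primrec_iota h
  set g : ℕ → ℕ → ℕ := fun a b => iota (if U (iota.symm a) (iota.symm b) then 1 else 0) with hg
  have hgp : Primrec₂ g := by
    rw [← Nat.Primrec'.prim_iff₂]
    refine hE.of_eq fun v => ?_
    rcases v with ⟨l, hl⟩
    match l, hl with
    | [a, b], hl => rfl
  set p : ℕ → ℕ := fun m => if g (iota (Nat.pair m.unpair.1 m)) m.unpair.2 = iota 1 then 1 else 0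
    with hp
  have hpp : Primrec p := by
    have u1 : Primrec fun x : ℕ => x.unpair.1 := Primrec.fst.comp Primrec.unpair
    have u2 : Primrec fun x : ℕ => x.unpair.2 := Primrec.snd.comp Primrec.unpair
    have q : PrimrecPred fun m : ℕ => g (iota (Nat.pair m.unpair.1 m)) m.unpair.2 = iota 1 :=
      Primrec.eq.comp (hgp.comp (hi.comp (Primrec₂.natPair.comp u1 Primrec.id)) u2)
        (Primrec.const _)
    exact Primrec.ite q (Primrec.const 1) (Primrec.const 0)
  obtain ⟨e, B, hc⟩ := codes_exist (Primrec.nat_iff.mp hpp)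
  have hbound : ∀ a, iota.symm a ≤ 2 ^ (B (Nat.pair e a) + 1) := by
    intro a
    by_contra hlt
    push Not at hlt
    have h1 := U_spec hc (Nat.pair e a) (iota.symm a) hlt.le
    have h2 : p (Nat.pair e a) = if U (Nat.pair e (Nat.pair e a)) (iota.symm a) then 1 else 0 := by
      simp only [hp, hg, Nat.unpair_pair, Equiv.symm_apply_apply, EmbeddingLike.apply_eq_iff_eq]
      by_cases hU : U (Nat.pair e (Nat.pair e a)) (iota.symm a) <;> simp [hU]
    rw [h2] at h1
    by_cases hU : U (Nat.pair e (Nat.pair e a)) (iota.symm a)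
    · simp [hU] at h1
    · simp [hU] at h1
  have hpow : Primrec fun a : ℕ => 2 ^ (B (Nat.pair e a) + 1) := by
    have e1 : Primrec fun n : ℕ => 2 ^ n := by
      have := (Primrec₂.unpaired'.mp Nat.Primrec.pow)
      exact this.comp (Primrec.const 2) Primrec.id
    exact e1.comp (Primrec.succ.comp (hc.primrec.comp
      (Primrec₂.natPair.comp (Primrec.const e) Primrec.id)))
  refine Primrec.of_graph ⟨_, hpow, hbound⟩ ?_
  have : PrimrecRel fun a b : ℕ => iota b = a :=
    Primrec.eq.comp (hi.comp Primrec.snd) Primrec.fst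
  refine this.of_eq fun a b => ?_
  rw [Equiv.symm_apply_eq]
  exact eq_comm

theorem primrec_map {k : ℕ} {f : ℕ → ℕ} (hf : Primrec f) :
    Primrec fun v : List.Vector ℕ k => v.map f := by
  have : Primrec fun v : List.Vector ℕ k => List.Vector.ofFn fun i => f (v.get i) :=
    Primrec.vector_ofFn fun i => hf.comp (Primrec.vector_get.comp Primrec.id (Primrec.const i))
  refine this.of_eq fun v => ?_
  ext i
  simp

theorem standard_of_univ {S : ℕ → ℕ} {iota : ℕ ≃ ℕ} (h : PunctualCopy S iota)
    (hE : Nat.Primrec' (onCopy iota univ)) : PunctuallyStandard iota := by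
  intro k f
  have h1 := primrec_iota h
  have h2 := primrec_symm h hE
  rw [Nat.Primrec'.prim_iff, Nat.Primrec'.prim_iff]
  constructor
  · intro hf
    have h3 : Primrec fun v : List.Vector ℕ k => iota.symm (onCopy iota f (v.map iota)) :=
      h2.comp (hf.comp (primrec_map h1))
    refine h3.of_eq fun v => ?_
    simp only [onCopy, Equiv.symm_apply_apply]
    congr 1
    ext i
    simp
  · intro hf
    exact h1.comp (hf.comp (primrec_map h2))

theorem isBasis_E2 : IsBasis @E2 := by
  intro S iota h hE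
  exact standard_of_univ h (hE 2 univ univ_E2)

end Pool.Agent.H132.Grz
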