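import Mathlib

set_option autoImplicit false

open Finset Pointwise

namespace Pool.Agent.H132.FAvoid

variable {G : Type*} [AddCommGroup G] [DecidableEq G]

theorem scherk_zero (n : ℕ) : ∀ (A B : Finset G), B.card = n → (0 : G) ∈ A → (0 : G) ∈ B →
    (∀ a ∈ A, ∀ b ∈ B, a + b = 0 → b = 0) → A.card + B.card ≤ (A + B).card + 1 := by
  induction n using Nat.strong_induction_on with
  | _ n ih =>
    intro A B hn hA hB hu
    by_cases h0 : ∀ b ∈ B, b = 0
    · have hB1 : B = {0} := by
        ext x
        simp only [mem_singleton]
        exact ⟨h0 x, fun h => h ▸ hB⟩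
      subst hB1
      simp
    · push Not at h0
      obtain ⟨b, hb, hb0⟩ := h0
      have hex : ∃ a ∈ A, a + b ∉ A := by
        by_contra hcon
        push Not at hcon
        have hsub : A.image (· + b) ⊆ A := by
          intro x hx
          obtain ⟨a, ha, rfl⟩ := mem_image.mp hx
          exact hcon a ha
        have hcard : A.card ≤ (A.image (· + b)).card := by
          rw [card_image_of_injective _ (add_left_injective b)]
        have heq := eq_of_subset_of_card_le hsub hcard
        rw [← heq] at hA
        obtain ⟨a, ha, hab⟩ := mem_image.mp hA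
        exact hb0 (hu a ha b hb hab)
      obtain ⟨a, ha, hab⟩ := hex
      set A' := A ∪ B.image (a + ·) with hA'
      set B' := B.filter (fun x => a + x ∈ A) with hB'
      have hlt : B'.card < n := by
        rw [← hn]
        refine card_lt_card ⟨filter_subset _ _, fun h => ?_⟩
        have := h hb
        rw [hB', mem_filter] at this
        exact hab this.2
      have hcard : A'.card + B'.card = A.card + B.card := by
        have h1 : A' = A ∪ (B.filter (fun x => ¬ (a + x ∈ A))).image (a + ·) := by
          ext x
          simp only [hA', mem_union, mem_image, mem_filter]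
          constructor
          · rintro (h | ⟨y, hy, rfl⟩)
            · exact Or.inl h
            · by_cases hy2 : a + y ∈ A
              · exact Or.inl hy2
              · exact Or.inr ⟨y, ⟨hy, hy2⟩, rfl⟩
          · rintro (h | ⟨y, ⟨hy, _⟩, rfl⟩)
            · exact Or.inl h
            · exact Or.inr ⟨y, hy, rfl⟩
        have h2 : Disjoint A ((B.filter (fun x => ¬ (a + x ∈ A))).image (a + ·)) := by
          rw [disjoint_right]
          intro x hx
          obtain ⟨y, hy, rfl⟩ := mem_image.mp hx
          exact (mem_filter.mp hy).2
        rw [h1, card_union_of_disjoint h2, card_image_of_injective _ (add_right_injective a)]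
        have h3 := card_filter_add_card_filter_not (s := B) (fun x => a + x ∈ A)
        rw [hB']
        omega
      have hsub : A' + B' ⊆ A + B := by
        intro x hx
        obtain ⟨u, hu1, v, hv, rfl⟩ := mem_add.mp hx
        rw [hB', mem_filter] at hv
        rw [hA', mem_union] at hu1
        rcases hu1 with h | h
        · exact add_mem_add h hv.1
        · obtain ⟨w, hw, rfl⟩ := mem_image.mp h
          have : a + w + v = (a + v) + w := by abel
          rw [this]
          exact add_mem_add hv.2 hw
      have huni : ∀ u ∈ A', ∀ v ∈ B', u + v = 0 → v = 0 := by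
        intro u hu1 v hv huv
        rw [hB', mem_filter] at hv
        rw [hA', mem_union] at hu1
        rcases hu1 with h | h
        · exact hu u h v hv.1 huv
        · obtain ⟨w, hw, rfl⟩ := mem_image.mp h
          have h1 : (a + v) + w = 0 := by rw [← huv]; abel
          have h2 := hu _ hv.2 w hw h1
          subst h2
          rw [add_zero] at h1
          exact hu a ha v hv.1 h1
      have h0A : (0 : G) ∈ A' := by rw [hA']; exact mem_union_left _ hA
      have h0B : (0 : G) ∈ B' := by
        rw [hB', mem_filter, add_zero]; exact ⟨hB, ha⟩
      have := ih B'.card hlt A' B' rfl h0A h0B huni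
      rw [hcard] at this
      exact this.trans (Nat.add_le_add_right (card_le_card hsub) 1)

/-- The theorem of Scherk and Kemperman. -/
theorem scherk {A B : Finset G} {a0 b0 : G} (ha : a0 ∈ A) (hb : b0 ∈ B)
    (hu : ∀ a ∈ A, ∀ b ∈ B, a + b = a0 + b0 → b = b0) :
    A.card + B.card ≤ (A + B).card + 1 := by
  have h := scherk_zero (B.image (· - b0)).card (A.image (· - a0)) (B.image (· - b0)) rfl
    (mem_image.mpr ⟨a0, ha, sub_self _⟩) (mem_image.mpr ⟨b0, hb, sub_self _⟩) (by
      intro a ha' b hb' hab
      obtain ⟨x, hx, rfl⟩ := mem_image.mp ha'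
      obtain ⟨y, hy, rfl⟩ := mem_image.mp hb'
      have : x + y = a0 + b0 := by
        have h1 : x + y = (x - a0 + (y - b0)) + (a0 + b0) := by abel
        rw [h1, hab, zero_add]
      have := hu x hx y hy this
      exact sub_eq_zero.mpr this)
  rw [card_image_of_injective _ (sub_left_injective), card_image_of_injective _ (sub_left_injective)] at h
  have hsub : A.image (· - a0) + B.image (· - b0) ⊆ (A + B).image (· - (a0 + b0)) := by
    intro z hz
    obtain ⟨u, hu1, v, hv, rfl⟩ := mem_add.mp hz
    obtain ⟨x, hx, rfl⟩ := mem_image.mp hu1
    obtain ⟨y, hy, rfl⟩ := mem_image.mp hv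
    exact mem_image.mpr ⟨x + y, add_mem_add hx hy, by abel⟩
  have h2 := card_le_card hsub
  rw [card_image_of_injective _ (sub_left_injective)] at h2
  omega

end Pool.Agent.H132.FAvoid
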